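import Pool.Agent.Q36.EF.Tq

/-!
# Nef line bundles on smooth torus quotients with trivial canonical bundle: the fibrations they define

`X = V / Γ` is the quotient of a complex torus of dimension `d` by a finite group which acts freely,
with trivial canonical bundle and `H^1(X, O_X) = 0`. `latt`, `IsTorusQuotient`, `LineBundle`,
`LineBundle.pow` and `LineBundle.IsTrivial` are defined in `Pool.Agent.W594.SYZ.Defs2`; `IsHermitian`,
`IsChernForm`, `IsNefForm` and `IsPositiveForm` in `Pool.Agent.W594.SYZ.TQDefs`; `IsPseudoEffective` in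
`Pool.Agent.TH128.SYZ.PsefDefs`; `HOneZero` and `IsFibration` in `Pool.Agent.TH735.AQ.Defs`; `N`,
`BasePointFree`, `SameImage`, `IsIso` and `Defines` in `Pool.Agent.Q36.EF.Defs`.
-/

set_option autoImplicit false

universe u

namespace Pool.Agent.Results.MP_5ee2d0_ag.EffectiveFibration

open Pool.Agent.W594.SYZ2 Pool.Agent.W594.SYZ2.TQ Pool.Agent.TH735.AQ Pool.Agent.TH128.SYZ Q36.EF

/-- `X = V / Γ` is a compact Kähler manifold with trivial canonical bundle and `H^1(X, O_X) = 0`: the
quotient of a complex torus by a finite group which acts freely, all linear parts have determinant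
one, and there is no invariant conjugate-linear functional except zero. -/
structure IsCYManifold {V : Type*} [NormedAddCommGroup V] [NormedSpace ℂ V]
    (Γ : Subgroup (V ≃ᵃ[ℂ] V)) : Prop where
  torus : IsTorusQuotient Γ
  free : ∀ γ ∈ Γ, γ ≠ 1 → ∀ v, γ v ≠ v
  canonical : ∀ γ ∈ Γ, LinearMap.det ((γ : V ≃ᵃ[ℂ] V).linear : V →ₗ[ℂ] V) = 1
  h01 : HOneZero Γ

/-- Let `X` be a torus quotient of dimension `d` which is smooth (the group acts freely) with trivial
canonical bundle and `H^1(X, O_X) = 0`, and `L` a line bundle on `X` with Chern form `H`.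

(1) Equivalent: `L` is pseudo-effective; `L` is nef; some power `L ^ m`, `m ≥ 1`, has a nonzero
section; `L ^ N(d)` is base point free; the linear system `|L ^ N(d)|` is base point free and defines a
fibration `g : X → B` onto a torus quotient (`L ^ N(d)` is the pullback of an ample line bundle on
`B`, which is base point free and separates the points of `B`).

(2) If `H` is positive definite, the morphism defined by `|L ^ N(d)|` is injective. -/
theorem result {V : Type u} [NormedAddCommGroup V] [NormedSpace ℂ V] [FiniteDimensional ℂ V]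
    (Γ : Subgroup (V ≃ᵃ[ℂ] V)) (hΓ : IsCYManifold Γ) (L : LineBundle Γ)
    (H : V → V → ℂ) (hc : IsChernForm L H) :
    List.TFAE [IsPseudoEffective L, IsNefForm H,
      ∃ m : ℕ, 1 ≤ m ∧ ∃ s, (L.pow m).IsSection s ∧ s ≠ 0,
      BasePointFree (L.pow (N (Module.finrank ℂ V))),
      ∃ (n : ℕ) (Δ : Subgroup ((Fin n → ℂ) ≃ᵃ[ℂ] (Fin n → ℂ))) (π : V →ₗ[ℂ] (Fin n → ℂ)),
        IsFibration Γ Δ π ∧ Defines (L.pow (N (Module.finrank ℂ V)))
          (fun v w => (N (Module.finrank ℂ V) : ℂ) * H v w) Δ π] ∧
    (IsPositiveForm H → ∀ v v', SameImage (L.pow (N (Module.finrank ℂ V))) v v' ↔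
      ∃ γ ∈ Γ, γ v = v') := by
  refine ⟨hone_tfae hΓ.torus hΓ.h01 hc, fun hp v v' => ?_⟩
  have hn : IsNefForm H := fun v => by
    by_cases h : v = 0
    · rw [h, h_zero_left hc.1]
      simp
    · exact (hp v h).le
  obtain ⟨n, Δ, π, hker, hf, -, h⟩ := exists_defines hΓ.torus hc hn
  have hD := h hΓ.h01
  have hinj : Function.Injective π := by
    rw [injective_iff_map_eq_zero]
    intro v hv
    by_contra hne
    have h1 := hp v hne
    rw [(hker v).1 hv v] at h1
    simp at h1
  rw [hD.fibres]
  exact ⟨fun ⟨γ, hγ⟩ => ⟨γ, γ.2, hinj hγ⟩, fun ⟨γ, hγ, h1⟩ => ⟨⟨γ, hγ⟩, by rw [h1]⟩⟩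

end Pool.Agent.Results.MP_5ee2d0_ag.EffectiveFibration
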