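import Pool.Agent.Q36.EI.Bun

/-!
# Nef divisors on manifolds with trivial canonical class: every index occurs

For every `m ≥ 2` there are a projective manifold `X = V / Γ` (the quotient of an abelian variety by a
finite group which acts freely) with `K_X ∼ 0` and `H^1(X, O_X) = 0`, and a nef line bundle `L` on `X`
which is not numerically trivial, such that `|k L|` is base point free exactly for the multiples `k`
of `m`; the dimension of `X` is at most `m ^ 5`. So an exponent `N` such that `|N L|` is base point free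
for all nef `L` on all such `X` of dimension at most `d` is divisible by all `m ≤ d ^ (1 / 5)`; in
particular no exponent works in all dimensions.

`IsTorusQuotient`, `LineBundle`, `LineBundle.pow`, `LineBundle.IsSection` and `LineBundle.IsTrivial`
are defined in `Pool.Agent.W594.SYZ.Defs2`; `IsHermitian`, `IsChernForm`, `IsNefForm` and
`IsPositiveForm` in `Pool.Agent.W594.SYZ.TQDefs`; `HOneZero` in `Pool.Agent.TH735.AQ.Defs`;
`BasePointFree` in `Pool.Agent.Q36.EF.Defs`.
-/

set_option autoImplicit false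

namespace Pool.Agent.Results.MP_5ee2d0_ag.EveryIndex

open Pool.Agent.W594.SYZ2 Pool.Agent.TH735.AQ Q36.EI
open Q36.EF (BasePointFree)

/-- The line bundle is the canonical bundle of `X = V / Γ`: `f(v) dv_1 ⋯ dv_d` is invariant under `Γ`
if and only if `f` transforms as a section. -/
def IsCanonical {V : Type} [NormedAddCommGroup V] [NormedSpace ℂ V]
    {Γ : Subgroup (V ≃ᵃ[ℂ] V)} (K : LineBundle Γ) : Prop :=
  ∀ (γ : Γ) (v : V), K.e γ v * LinearMap.det ((γ : V ≃ᵃ[ℂ] V).linear : V →ₗ[ℂ] V) = 1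

/-- `X = V / Γ` is a projective manifold with `K_X ∼ 0` and `H^1(X, O_X) = 0`: `X` is the quotient of
a complex torus by a finite group which acts freely, there is a line bundle with a positive definite
Chern form (an ample line bundle) on `X`, and the canonical bundle is trivial. -/
structure IsCYQuotient {V : Type} [NormedAddCommGroup V] [NormedSpace ℂ V]
    (Γ : Subgroup (V ≃ᵃ[ℂ] V)) : Prop where
  torus : IsTorusQuotient Γ
  free : ∀ γ ∈ Γ, γ ≠ 1 → ∀ v, γ v ≠ v
  projective : ∃ (A : LineBundle Γ) (HA : V → V → ℂ), IsChernForm A HA ∧ IsPositiveForm HA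
  canonical : ∃ K : LineBundle Γ, IsCanonical K ∧ K.IsTrivial
  h01 : HOneZero Γ

theorem main (m : ℕ) (hm : 2 ≤ m) :
    ∃ (V : Type) (_ : NormedAddCommGroup V) (_ : NormedSpace ℂ V) (_ : FiniteDimensional ℂ V)
      (Γ : Subgroup (V ≃ᵃ[ℂ] V)) (L : LineBundle Γ) (H : V → V → ℂ),
      IsCYQuotient Γ ∧ Module.finrank ℂ V ≤ m ^ 5 ∧
      IsChernForm L H ∧ IsNefForm H ∧ (∃ v w, H v w ≠ 0) ∧
      ∀ k : ℕ, BasePointFree (L.pow k) ↔ m ∣ k := by
  have : NeZero m := ⟨by omega⟩
  have : Fact (1 < m) := ⟨by omega⟩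
  refine ⟨V m, inferInstance, inferInstance, inferInstance, Gam m, LL m 1 {jB m}, HH {jB m},
    ⟨tq, fun γ hγ hne v hv => hne (free hγ hv),
      ⟨LL m 0 Finset.univ, HH Finset.univ, chern _ _, pos_univ⟩,
      ⟨⟨fun _ _ => 1, fun _ => differentiable_const _, fun _ _ => one_ne_zero,
      fun _ _ _ => (one_mul 1).symm, fun _ _ _ => rfl⟩, fun γ v => ?_, fun _ => 1,
      ⟨differentiable_const _, fun _ _ => (one_mul 1).symm⟩, fun _ => one_ne_zero⟩, hone⟩, ?_,
    chern _ _, HH_nef _, ?_, fun k => ⟨dvd_of_bpf, fun h => bpf_of_dvd h _⟩⟩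
  · change (1 : ℂ) * _ = 1
    rw [one_mul]
    exact det_eq γ.2
  · have h1 : Module.finrank ℂ (V m) ≤ Module.finrank ℂ (Q m → ZMod m → ℂ) :=
      Submodule.finrank_le _
    have h2 : Module.finrank ℂ (Q m → ZMod m → ℂ) = Fintype.card (Q m) * m := by
      rw [Module.finrank_pi_fintype, Finset.sum_const, Finset.card_univ,
        Module.finrank_fintype_fun_eq_card, ZMod.card, smul_eq_mul]
    have h3 : Fintype.card (Q m) ≤ m * (m * (m * m)) := by
      have h4 : Fintype.card (Q m) ≤ Fintype.card (ZMod m × ZMod m × ZMod m × ZMod m) :=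
        Fintype.card_subtype_le _
      rwa [Fintype.card_prod, Fintype.card_prod, Fintype.card_prod, ZMod.card] at h4
    calc Module.finrank ℂ (V m) ≤ Fintype.card (Q m) * m := h1.trans_eq h2
      _ ≤ m * (m * (m * m)) * m := Nat.mul_le_mul_right _ h3
      _ = m ^ 5 := by ring
  · classical
    refine ⟨el (jB m) 1 1, el (jB m) 1 1, fun h => ?_⟩
    have h1 : (el (jB m) 1 1).1 (jB m) 1 ≠ 0 := by
      rw [el_apply]
      simp
    have h2 := HH_pos (Finset.mem_singleton_self (jB m)) h1
    rw [h, Complex.zero_re] at h2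
    exact lt_irrefl _ h2

theorem result :
    -- (1) for every `m ≥ 2` some nef line bundle, which is not numerically trivial, has index `m`
    (∀ m : ℕ, 2 ≤ m →
      ∃ (V : Type) (_ : NormedAddCommGroup V) (_ : NormedSpace ℂ V) (_ : FiniteDimensional ℂ V)
        (Γ : Subgroup (V ≃ᵃ[ℂ] V)) (L : LineBundle Γ) (H : V → V → ℂ),
        IsCYQuotient Γ ∧ Module.finrank ℂ V ≤ m ^ 5 ∧
        IsChernForm L H ∧ IsNefForm H ∧ (∃ v w, H v w ≠ 0) ∧
        ∀ k : ℕ, BasePointFree (L.pow k) ↔ m ∣ k) ∧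
    -- (2) the exponents which work in all dimensions up to `d`
    (∀ d N : ℕ,
      (∀ (V : Type) [NormedAddCommGroup V] [NormedSpace ℂ V] [FiniteDimensional ℂ V]
        (Γ : Subgroup (V ≃ᵃ[ℂ] V)) (L : LineBundle Γ) (H : V → V → ℂ),
        IsCYQuotient Γ → Module.finrank ℂ V ≤ d → IsChernForm L H → IsNefForm H →
        BasePointFree (L.pow N)) →
      ∀ m : ℕ, 1 ≤ m → m ^ 5 ≤ d → m ∣ N) := by
  refine ⟨main, fun d N h m hm hd => ?_⟩
  rcases Nat.lt_or_ge m 2 with h1 | h1
  · have : m = 1 := by omega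
    rw [this]
    exact one_dvd N
  · obtain ⟨V, i1, i2, i3, Γ, L, H, h2, h3, h4, h5, -, h6⟩ := main m h1
    exact (h6 N).1 (h V Γ L H h2 (h3.trans hd) h4 h5)

end Pool.Agent.Results.MP_5ee2d0_ag.EveryIndex
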