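import Pool.Agent.Q42.EB.Main
import Pool.Agent.Q47.EB.Nef

/-!
# Nef line bundles on smooth quotients of complex tori with trivial canonical bundle

Let `X = V / Γ = A / G` be the quotient of a complex torus `A` of dimension `d` by a finite group `G` which
acts freely (by affine maps). These are the compact Kähler manifolds with vanishing Chern classes
(the flat ones), for example the Calabi-Yau threefolds of type A (Igusa, Ueno, Oguiso-Sakurai). The
theorem answers Q1 for those with `K_X ∼ 0` and `H^1(X, O_X) = 0`, in all dimensions and with an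
exponent: for every nef `L` on `X` the linear system `|N L|` is base point free, where
`N = 4 |G| ^ 5`, or a number `N(d)` which only depends on the dimension.

`latt`, `IsTorusQuotient`, `LineBundle`, `LineBundle.pow`, `LineBundle.IsSection` and
`LineBundle.IsTrivial` are defined in `Pool.Agent.W594.SYZ.Defs2`; `IsChernForm` and `IsNefForm` in
`Pool.Agent.W594.SYZ.TQDefs`; `HOneZero` and `IsFlat` in `Pool.Agent.TH735.AQ.Defs`; `order` (the order
of `G`) and `BasePointFree` (for every point some global section does not vanish there) in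
`Pool.Agent.Q42.EB.Main`.
-/

set_option autoImplicit false

universe u

namespace Pool.Agent.Results.MP_5ee2d0_ag.TorusQuotients

open Pool.Agent.W594.SYZ2 Pool.Agent.TH735.AQ Pool.Agent.Q42.EB

/-- The exponent `4 ((3 ^ (4 d ^ 2))!) ^ 3`. -/
def N (d : ℕ) : ℕ := 4 * (3 ^ (2 * d) ^ 2).factorial ^ 3

/-- The action of `Γ` on `V` is free (so that `X` is smooth). -/
def IsFree {V : Type u} [NormedAddCommGroup V] [NormedSpace ℂ V]
    (Γ : Subgroup (V ≃ᵃ[ℂ] V)) : Prop := ∀ γ ∈ Γ, γ ≠ 1 → ∀ v, γ v ≠ v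

/-- The line bundle is the canonical bundle of `X = V / Γ`: `f(v) dv_1 ⋯ dv_d` is invariant under `Γ`
if and only if `f` transforms as a section. -/
def IsCanonical {V : Type u} [NormedAddCommGroup V] [NormedSpace ℂ V]
    {Γ : Subgroup (V ≃ᵃ[ℂ] V)} (K : LineBundle Γ) : Prop :=
  ∀ (γ : Γ) (v : V), K.e γ v * LinearMap.det ((γ : V ≃ᵃ[ℂ] V).linear : V →ₗ[ℂ] V) = 1

/-- The determinants of the linear parts are roots of unity. -/
theorem det_pow {V : Type u} [NormedAddCommGroup V] [NormedSpace ℂ V] [FiniteDimensional ℂ V]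
    {Γ : Subgroup (V ≃ᵃ[ℂ] V)} (hΓ : IsTorusQuotient Γ) (γ : Γ) :
    LinearMap.det ((γ : V ≃ᵃ[ℂ] V).linear : V →ₗ[ℂ] V) ^ order Γ = 1 := by
  have := TQ.finite_Lin hΓ
  let g : TQ.Lin Γ := ⟨(γ : V ≃ᵃ[ℂ] V).linear, ⟨γ, γ.2, rfl⟩⟩
  have h1 : g ^ Nat.card (TQ.Lin Γ) = 1 := pow_card_eq_one'
  have h2 : ((γ : V ≃ᵃ[ℂ] V).linear : V ≃ₗ[ℂ] V) ^ order Γ = 1 := by
    have := congrArg Subtype.val h1
    exact this
  have h3 : (((γ : V ≃ᵃ[ℂ] V).linear : V →ₗ[ℂ] V)) ^ order Γ = 1 := by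
    have h4 := congrArg (fun e : V ≃ₗ[ℂ] V => (e : V →ₗ[ℂ] V)) h2
    have h5 : ∀ n : ℕ, ((((γ : V ≃ᵃ[ℂ] V).linear) ^ n : V ≃ₗ[ℂ] V) : V →ₗ[ℂ] V) =
        (((γ : V ≃ᵃ[ℂ] V).linear : V →ₗ[ℂ] V)) ^ n := by
      intro n
      induction n with
      | zero => rfl
      | succ n ih => rw [pow_succ, pow_succ, ← ih]; rfl
    rw [← h5]
    exact h4
  rw [← map_pow, h3, map_one]

/-- The canonical bundle is trivial if and only if all linear parts have determinant one. -/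
theorem trivial_iff {V : Type u} [NormedAddCommGroup V] [NormedSpace ℂ V] [FiniteDimensional ℂ V]
    {Γ : Subgroup (V ≃ᵃ[ℂ] V)} (hΓ : IsTorusQuotient Γ) {K : LineBundle Γ} (hK : IsCanonical K) :
    K.IsTrivial ↔ ∀ γ ∈ Γ, LinearMap.det (γ.linear : V →ₗ[ℂ] V) = 1 := by
  constructor
  · rintro ⟨s, hs, h0⟩ γ hγ
    have hflat : IsFlat K := by
      refine ⟨fun γ v w => ?_, fun γ v => ?_⟩
      · have hd : LinearMap.det ((γ : V ≃ᵃ[ℂ] V).linear : V →ₗ[ℂ] V) ≠ 0 :=
          (LinearEquiv.isUnit_det' (γ : V ≃ᵃ[ℂ] V).linear).ne_zero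
        exact mul_right_cancel₀ hd ((hK γ v).trans (hK γ w).symm)
      · have h2 := congrArg (fun z => z ^ order Γ) (hK γ v)
        simp only [mul_pow, det_pow hΓ γ, one_pow, mul_one] at h2
        exact Complex.norm_eq_one_of_pow_eq_one h2 (by have := order_pos hΓ; omega)
    have hs1 : (K.pow 1).IsSection s := ⟨hs.holo, fun γ v => by
      rw [hs.eq γ v]
      show _ = K.e γ v ^ 1 * _
      rw [pow_one]⟩
    have hc := flat_section hΓ hflat hs1
    have h1 := hs.eq ⟨γ, hγ⟩ 0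
    rw [hc _ 0] at h1
    have h2 : K.e ⟨γ, hγ⟩ 0 = 1 := mul_right_cancel₀ (h0 0) (by rw [← h1, one_mul])
    have h3 := hK ⟨γ, hγ⟩ 0
    rwa [h2, one_mul] at h3
  · intro h
    refine ⟨fun _ => 1, ⟨differentiable_const _, fun γ v => ?_⟩, fun _ => one_ne_zero⟩
    have h1 := hK γ v
    rw [h _ γ.2, mul_one] at h1
    rw [h1, one_mul]

/-- The canonical bundle of a smooth torus quotient. -/
theorem exists_canonical {V : Type u} [NormedAddCommGroup V] [NormedSpace ℂ V]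
    [FiniteDimensional ℂ V] {Γ : Subgroup (V ≃ᵃ[ℂ] V)}
    (hfree : IsFree Γ) : ∃ K : LineBundle Γ, IsCanonical K := by
  have hdet : ∀ γ : Γ, LinearMap.det ((γ : V ≃ᵃ[ℂ] V).linear : V →ₗ[ℂ] V) ≠ 0 := fun γ =>
    (LinearEquiv.isUnit_det' (γ : V ≃ᵃ[ℂ] V).linear).ne_zero
  refine ⟨⟨fun γ _ => (LinearMap.det ((γ : V ≃ᵃ[ℂ] V).linear : V →ₗ[ℂ] V))⁻¹,
    fun γ => differentiable_const _, fun γ v => inv_ne_zero (hdet γ), fun γ δ v => ?_,
    fun γ v h => ?_⟩, fun γ v => inv_mul_cancel₀ (hdet γ)⟩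
  · have h1 : (((γ * δ : Γ) : V ≃ᵃ[ℂ] V).linear : V →ₗ[ℂ] V) =
        ((γ : V ≃ᵃ[ℂ] V).linear : V →ₗ[ℂ] V) ∘ₗ ((δ : V ≃ᵃ[ℂ] V).linear : V →ₗ[ℂ] V) := rfl
    rw [h1, LinearMap.det_comp, mul_inv]
  · by_cases hg : (γ : V ≃ᵃ[ℂ] V) = 1
    · rw [hg]
      have : (((1 : V ≃ᵃ[ℂ] V).linear : V ≃ₗ[ℂ] V) : V →ₗ[ℂ] V) = LinearMap.id := rfl
      rw [this, LinearMap.det_id, inv_one]
    · exact absurd h (hfree _ γ.2 hg v)

/-- Let `X = V / Γ = A / G` be a smooth torus quotient of dimension `d`.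

(1) The canonical bundle `K` exists, and it is trivial if and only if the linear parts of the elements
of `Γ` have determinant one.

(2) Suppose `H^1(X, O_X) = 0`. For a line bundle `L` on `X` with Chern form `H` the following are
equivalent: `L` is nef; some positive power of `L` has a nonzero section; some positive power of `L` is
base point free; `L ^ (4 |G| ^ 5)` is base point free; `L ^ N(d)` is base point free.

(3) If `H^1(X, O_X) ≠ 0` then some line bundle on `X`, flat and so numerically trivial, has no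
positive power with a nonzero section.

(4) Without any condition on `H^1`, for every nef line bundle with Chern form `H` some base point
free line bundle has the Chern form `4 |G| ^ 3 H`. -/
theorem result {V : Type u} [NormedAddCommGroup V] [NormedSpace ℂ V] [FiniteDimensional ℂ V]
    (Γ : Subgroup (V ≃ᵃ[ℂ] V)) (hΓ : IsTorusQuotient Γ) (hfree : IsFree Γ) :
    (∃ K : LineBundle Γ, IsCanonical K ∧
      (K.IsTrivial ↔ ∀ γ ∈ Γ, LinearMap.det (γ.linear : V →ₗ[ℂ] V) = 1)) ∧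
    (HOneZero Γ → ∀ (L : LineBundle Γ) (H : V → V → ℂ), IsChernForm L H →
      List.TFAE [IsNefForm H,
        ∃ m : ℕ, 1 ≤ m ∧ ∃ s, (L.pow m).IsSection s ∧ s ≠ 0,
        ∃ m : ℕ, 1 ≤ m ∧ BasePointFree (L.pow m),
        BasePointFree (L.pow (4 * order Γ ^ 5)),
        BasePointFree (L.pow (N (Module.finrank ℂ V)))]) ∧
    (¬ HOneZero Γ → ∃ P : LineBundle Γ, IsFlat P ∧
      ∀ m : ℕ, 1 ≤ m → ∀ s, (P.pow m).IsSection s → s = 0) ∧
    ∀ (L : LineBundle Γ) (H : V → V → ℂ), IsChernForm L H → IsNefForm H →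
      ∃ M : LineBundle Γ, IsChernForm M (fun v w => ((4 * order Γ ^ 3 : ℕ) : ℂ) * H v w) ∧
        BasePointFree M := by
  refine ⟨?_, fun h01 L H hc => ?_, exists_bad hΓ, fun L H hc hn => numerical_bpf hΓ hc hn⟩
  · obtain ⟨K, hK⟩ := exists_canonical hfree
    exact ⟨K, hK, trivial_iff hΓ hK⟩
  have hN : 1 ≤ N (Module.finrank ℂ V) := Q47.EB.expo_pos _
  have hpos : 1 ≤ 4 * order Γ ^ 5 := Nat.mul_pos (by norm_num) (pow_pos (order_pos hΓ) 5)
  tfae_have 1 → 4 := effective hΓ h01 hc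
  tfae_have 1 → 5 := by
    intro hn
    obtain ⟨hH, F, hF, hFe⟩ := hc
    exact Q47.EB.gg_of_hone hΓ h01 hH ⟨hF, hFe⟩ hn
  tfae_have 4 → 3 := fun h => ⟨_, hpos, h⟩
  tfae_have 5 → 3 := fun h => ⟨_, hN, h⟩
  tfae_have 3 → 2 := by
    rintro ⟨m, hm, h⟩
    obtain ⟨s, hs, h0⟩ := h 0
    exact ⟨m, hm, s, hs, fun h1 => h0 (by rw [h1]; rfl)⟩
  tfae_have 2 → 1 := by
    rintro ⟨m, hm, s, hs, h0⟩
    exact nef_of_pow hΓ hc hm hs h0
  tfae_finish

end Pool.Agent.Results.MP_5ee2d0_ag.TorusQuotients
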